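import Pool.Agent.Helper76.PP.UFs

set_option autoImplicit false

/-!
# Module I9: there is no Tukey map for `x ≰ y` (MP_505789_lc)
-/

namespace Pool.Agent.Helper11.PP

open Cardinal Filter Set
open Pool.Agent.H32.PP (MAsc CI)

/-- Module I9. -/
theorem st_final (hT : ST_tukey) : ST_final := by
  classical
  intro hB U hU X _ ch hch G hG CC PP hCC p hp s hs V hV x y hxy g hg
  obtain ⟨A0, ψ, hA0, hA0f, hmono, h1, h2⟩ := hT U hU (V y) (V x) (hV.proj y) (hV.proj x)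
    (hV.ppoint y) (hV.ppoint x) (hV.fin y) (hV.fin x) g hg
  obtain ⟨β, _, hβ⟩ := hCC (fun _ => ∅) ψ
  obtain ⟨γ, hγ, hsep⟩ := hs.sep x y hxy β
  obtain ⟨δ, hδ⟩ := hB.gt γ
  -- the intermediate systems
  let Q : ℕ → Sys → Prop := fun n p' => Valid n p' ∧ Ref n (p δ n) p' ∧ Ref n p' (p γ n) ∧
    p'.i = (p γ n).i ∧ Good n p' (CC β n) (PP β n)
  have hQ : ∀ᶠ n in (U : Filter ℕ), ∃ p', Q n p' := hp.good β γ δ hγ hδ
  let P : ℕ → Sys := fun n => if h : ∃ p', Q n p' then h.choose else p γ n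
  have hP : ∀ᶠ n in (U : Filter ℕ), Q n (P n) := by
    filter_upwards [hQ] with n hn
    have : P n = hn.choose := dif_pos hn
    rw [this]
    exact hn.choose_spec
  have hname : ∀ z : X, ∀ᶠ n in (U : Filter ℕ), IsName (P n).i n (s γ z n) := by
    intro z
    filter_upwards [hP, hs.name γ z] with n ⟨_, _, _, h4, _⟩ h5
    rw [h4]
    exact h5
  have hsub : ∀ z : X, ∀ᶠ n in (U : Filter ℕ),
      Aset (p δ n) (s δ z n) ⊆ Aset (P n) (s γ z n) := by
    intro z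
    filter_upwards [hP, hs.name δ z, hs.cut γ δ z hδ] with n ⟨_, h3, _, h4, _⟩ h5 h6
    have := Aset_subset_of_ref h3 h5
    rwa [h4, h6] at this
  have hmem : ∀ z : X, {w : ℕ × ℕ | w.2 ∈ Aset (P w.1) (s γ z w.1)} ∈ V z := by
    intro z
    rw [hV.mem]
    exact ⟨δ, (hsub z).mono fun n hn q hq => hn hq⟩
  obtain ⟨B, hB1, hB2, k, hk⟩ := h2 _ (hmem x)
  let B' : ℕ → Finset ℕ := fun n => (B n).filter (fun q => q ∈ Aset (P n) (s γ y n))
  have hB' : {z : ℕ × ℕ | z.2 ∈ B' z.1} =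
      {z : ℕ × ℕ | z.2 ∈ B z.1} ∩ {z : ℕ × ℕ | z.2 ∈ Aset (P z.1) (s γ y z.1)} := by
    ext z
    simp [B']
  have hB'm : {z : ℕ × ℕ | z.2 ∈ B' z.1} ∈ V y := by
    rw [hB']
    exact Filter.inter_mem hB1 (hmem y)
  have hE := h1 B' (by rw [hB']; exact Set.inter_subset_left.trans hB2) hB'm
  rw [hV.mem] at hE
  obtain ⟨δ', hδ'⟩ := hE
  have hfin : ∀ᶠ n in (U : Filter ℕ), False := by
    filter_upwards [hδ', Aset_ne hG hp hs x δ', hP, hname x, hname y, hsep, hU.free k]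
      with n h3 ⟨q, hq⟩ h4 h5 h6 h7 h8
    have h9 : q ∈ ψ n (B' n) := h3 q hq
    have h10 : ∀ v ∈ ψ n (B' n), v ∈ Aset (P n) (s γ x n) := by
      intro v hv
      exact hk n h8 v (hmono n _ _ (Finset.filter_subset _ _) hv)
    have h11 : KGood n (P n) (ψ n) (s γ x n) := by
      have := h4.2.2.2.2.2 _ h5
      rwa [hβ] at this
    have h12 : ((B' n : Finset ℕ) : Set ℕ) ⊆ Aset (P n) (s γ y n) := by
      intro v hv
      exact (Finset.mem_filter.1 (Finset.mem_coe.1 hv)).2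
    rcases h11 _ h6 h7 (B' n) h12 with h13 | h13
    · exact Set.disjoint_left.1 h13 h9 (h10 q h9)
    · exact h13 h10
  exact (Filter.eventually_false_iff_eq_bot.1 hfin ▸ U.neBot : (⊥ : Filter ℕ).NeBot).ne rfl

end Pool.Agent.Helper11.PP
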