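import Pool.Agent.Helper11.PP.Inf
import Pool.Agent.Helper11.PP.Algebra

set_option autoImplicit false

/-!
# Module I7: the ultrafilters attached to the elements of `X` (MP_505789_lc)
-/

namespace Pool.Agent.Helper11.PP

open Cardinal Filter Set
open Pool.Agent.H32.PP (MAsc CI)

theorem sub_iota (J : Nm → Nm → ℕ) {i : ℕ} (s x : Nm) {w : List ℕ} (hw : ∀ a ∈ w, a < i) :
    sub (iota J i s x) w = iota J i (sub s w) (sub x w) := by
  ext v
  rw [sub_apply, iota_apply, iota_apply, sub_apply, sub_sub, sub_sub]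
  have h : (∀ a ∈ v, a < i) ↔ (∀ a ∈ w ++ v, a < i) := by
    constructor
    · intro h a ha
      rcases List.mem_append.1 ha with h1' | h1'
      · exact hw a h1'
      · exact h a h1'
    · intro h a ha
      exact h a (List.mem_append_right _ ha)
  exact if_congr (and_congr Iff.rfl h.symm) rfl rfl

theorem Bdd.gt (hB : Bdd) (a : CI) : ∃ b : CI, a < b := by
  obtain ⟨b, hb⟩ := hB {a} (by
    rw [Cardinal.mk_singleton]
    exact_mod_cast Cardinal.nat_lt_continuum 1)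
  exact ⟨b, hb a rfl⟩

theorem Bdd.seq (hB : Bdd) (a : ℕ → CI) : ∃ b : CI, ∀ k, a k < b := by
  obtain ⟨b, hb⟩ := hB (Set.range a)
    (lt_of_le_of_lt (Cardinal.mk_range_le.trans (by simp)) Cardinal.aleph0_lt_continuum)
  exact ⟨b, fun k => hb _ ⟨k, rfl⟩⟩

theorem Bdd.nonempty (hB : Bdd) : Nonempty CI := by
  obtain ⟨b, _⟩ := hB ∅ (by
    rw [Cardinal.mk_eq_zero]
    exact lt_of_lt_of_le Cardinal.aleph0_pos Cardinal.aleph0_le_continuum)
  exact ⟨b⟩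

section

variable {U : Ultrafilter ℕ} {X : Type} [PartialOrder X] {ch : X → CI → X}
  {G : ℕ → ℕ → ℕ → ℕ} {CC : CI → ℕ → Set ℕ} {PP : CI → ℕ → Finset ℕ → Set ℕ}
  {p : CI → ℕ → Sys} {s : CI → X → ℕ → Nm}

/-- The sets decrease. -/
theorem Aset_anti (hp : GenSeq U G CC PP p) (hs : Naming U ch (fun δ n => (p δ n).i) s) (x : X)
    {γ δ : CI} (h : γ ≤ δ) :
    ∀ᶠ n in (U : Filter ℕ), Aset (p δ n) (s δ x n) ⊆ Aset (p γ n) (s γ x n) := by
  rcases h.eq_or_lt with rfl | h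
  · exact Eventually.of_forall fun n => le_rfl
  · filter_upwards [hp.ref γ δ h, hs.name δ x, hs.cut γ δ x h] with n h1 h2 h3
    have := Aset_subset_of_ref h1 h2
    rwa [h3] at this

/-- The sets are not empty. -/
theorem Aset_ne (hG : IsG G) (hp : GenSeq U G CC PP p)
    (hs : Naming U ch (fun δ n => (p δ n).i) s) (x : X) (δ : CI) :
    ∀ᶠ n in (U : Filter ℕ), (Aset (p δ n) (s δ x n)).Nonempty := by
  filter_upwards [hp.large δ 1, hs.name δ x] with n h1 h2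
  obtain ⟨pt, hpt⟩ := hG.point n _ _ _ h2 h1.2
  exact ⟨_, pt, hpt, rfl⟩

/-- The intermediate good system. -/
theorem good_step (hp : GenSeq U G CC PP p)
    (hs : Naming U ch (fun δ n => (p δ n).i) s) (x : X) {β γ δ : CI} (hβ : β ≤ γ) (hδ : γ < δ) :
    ∀ᶠ n in (U : Filter ℕ), ∃ p' : Sys, Valid n p' ∧ Ref n p' (p γ n) ∧ p'.i = (p γ n).i ∧
      Good n p' (CC β n) (PP β n) ∧ IsName p'.i n (s γ x n) ∧
      Aset (p δ n) (s δ x n) ⊆ Aset p' (s γ x n) := by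
  filter_upwards [hp.good β γ δ hβ hδ, hs.name γ x, hs.name δ x, hs.cut γ δ x hδ]
    with n ⟨p', h1, h2, h3, h4, h5⟩ h6 h7 h8
  refine ⟨p', h1, h3, h4, h5, h4 ▸ h6, ?_⟩
  have := Aset_subset_of_ref h2 h7
  rwa [h4, h8] at this

/-- The filter. -/
def VF (hB : Bdd) (hp : GenSeq U G CC PP p) (hs : Naming U ch (fun δ n => (p δ n).i) s) (x : X) :
    Filter (ℕ × ℕ) where
  sets := {D | ∃ δ, ∀ᶠ n in (U : Filter ℕ), ∀ q ∈ Aset (p δ n) (s δ x n), (n, q) ∈ D}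
  univ_sets := by
    obtain ⟨δ⟩ := hB.nonempty
    exact ⟨δ, Eventually.of_forall fun n q _ => Set.mem_univ _⟩
  sets_of_superset := by
    rintro D E ⟨δ, hδ⟩ hDE
    exact ⟨δ, hδ.mono fun n hn q hq => hDE (hn q hq)⟩
  inter_sets := by
    rintro D E ⟨δ, hδ⟩ ⟨δ', hδ'⟩
    refine ⟨max δ δ', ?_⟩
    filter_upwards [hδ, hδ', Aset_anti hp hs x (le_max_left δ δ'),
      Aset_anti hp hs x (le_max_right δ δ')] with n h1 h2 h3 h4 q hq
    exact ⟨h1 q (h3 hq), h2 q (h4 hq)⟩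

theorem mem_VF (hB : Bdd) (hp : GenSeq U G CC PP p)
    (hs : Naming U ch (fun δ n => (p δ n).i) s) (x : X) (D : Set (ℕ × ℕ)) :
    D ∈ VF hB hp hs x ↔
      ∃ δ, ∀ᶠ n in (U : Filter ℕ), ∀ q ∈ Aset (p δ n) (s δ x n), (n, q) ∈ D := Iff.rfl

theorem VF_compl (hB : Bdd) (hG : IsG G) (hCC : ∀ C, ∃ β, CC β = C) (hp : GenSeq U G CC PP p)
    (hs : Naming U ch (fun δ n => (p δ n).i) s) (x : X) (D : Set (ℕ × ℕ)) :
    Dᶜ ∉ VF hB hp hs x ↔ D ∈ VF hB hp hs x := by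
  constructor
  · intro hD
    obtain ⟨β, hβ⟩ := hCC (fun n => {q | (n, q) ∈ D})
    obtain ⟨δ, hδ⟩ := hB.gt β
    have h1 : ∀ᶠ n in (U : Filter ℕ), (∀ q ∈ Aset (p δ n) (s δ x n), (n, q) ∈ D) ∨
        (∀ q ∈ Aset (p δ n) (s δ x n), (n, q) ∈ Dᶜ) := by
      filter_upwards [good_step hp hs x (le_refl β) hδ] with n ⟨p', _, _, _, h4, h5, h6⟩
      rcases h4.1 _ h5 with h7 | h7
      · left
        intro q hq
        have := h7 (h6 hq)
        rw [hβ] at this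
        exact this
      · right
        intro q hq hqD
        have h8 : q ∈ CC β n := by rw [hβ]; exact hqD
        exact Set.disjoint_left.1 h7 (h6 hq) h8
    rcases Ultrafilter.eventually_or.1 h1 with h2 | h2
    · exact ⟨δ, h2⟩
    · exact absurd ⟨δ, h2⟩ hD
  · intro hD hD'
    have h := (VF hB hp hs x).inter_mem hD hD'
    rw [Set.inter_compl_self] at h
    obtain ⟨δ, hδ⟩ := h
    have h3 : ∀ᶠ n in (U : Filter ℕ), False := by
      filter_upwards [hδ, Aset_ne hG hp hs x δ] with n h1 ⟨q, hq⟩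
      exact h1 q hq
    exact (Filter.eventually_false_iff_eq_bot.1 h3 ▸ U.neBot : (⊥ : Filter ℕ).NeBot).ne rfl

/-- The ultrafilter attached to `x`. -/
noncomputable def VU (hB : Bdd) (hG : IsG G) (hCC : ∀ C, ∃ β, CC β = C)
    (hp : GenSeq U G CC PP p) (hs : Naming U ch (fun δ n => (p δ n).i) s) (x : X) :
    Ultrafilter (ℕ × ℕ) :=
  Ultrafilter.ofComplNotMemIff (VF hB hp hs x) (VF_compl hB hG hCC hp hs x)

theorem mem_VU (hB : Bdd) (hG : IsG G) (hCC : ∀ C, ∃ β, CC β = C)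
    (hp : GenSeq U G CC PP p) (hs : Naming U ch (fun δ n => (p δ n).i) s) (x : X)
    (D : Set (ℕ × ℕ)) :
    D ∈ VU hB hG hCC hp hs x ↔
      ∃ δ, ∀ᶠ n in (U : Filter ℕ), ∀ q ∈ Aset (p δ n) (s δ x n), (n, q) ∈ D := Iff.rfl

open Classical in
/-- The projection map. -/
noncomputable def rkf (p : CI → ℕ → Sys) (s : CI → X → ℕ → Nm) (δ ξ : CI) (x y : X)
    (z : ℕ × ℕ) : ℕ × ℕ :=
  (z.1, if h : ∃ pt, IsPoint (s δ x z.1) (p δ z.1).N pt ∧ z.2 = (p δ z.1).c (s δ x z.1, pt) then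
    (p δ z.1).c (s δ y z.1, sub h.choose [(p ξ z.1).i]) else 0)

omit [PartialOrder X] in
theorem rkf_spec {δ ξ : CI} {x y : X} {n : ℕ} (hv : Valid n (p δ n))
    (hn : IsName (p δ n).i n (s δ x n)) {pt : Nm} (hpt : IsPoint (s δ x n) (p δ n).N pt) :
    rkf p s δ ξ x y (n, (p δ n).c (s δ x n, pt)) =
      (n, (p δ n).c (s δ y n, sub pt [(p ξ n).i])) := by
  have h : ∃ pt', IsPoint (s δ x n) (p δ n).N pt' ∧
      (p δ n).c (s δ x n, pt) = (p δ n).c (s δ x n, pt') := ⟨pt, hpt, rfl⟩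
  have h2 : h.choose = pt := (hv _ hn _ _ hpt h.choose_spec.1 h.choose_spec.2).symm
  unfold rkf
  simp only
  rw [dif_pos h, h2]

theorem rkf_mem (hp : GenSeq U G CC PP p) (hs : Naming U ch (fun δ n => (p δ n).i) s) {x : X}
    {ξ δ₀ δ : CI} (hx : ch x ξ < x) (hξ : ξ < δ₀) (hδ : δ₀ ≤ δ) :
    ∀ᶠ n in (U : Filter ℕ), ∀ q ∈ Aset (p δ n) (s δ x n),
      (rkf p s δ₀ ξ x (ch x ξ) (n, q)).1 = n ∧
      (rkf p s δ₀ ξ x (ch x ξ) (n, q)).2 ∈ Aset (p δ n) (s δ (ch x ξ) n) := by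
  rcases hδ.eq_or_lt with rfl | hδ
  · filter_upwards [hp.valid δ₀, hs.name δ₀ x, hs.child δ₀ x ξ hξ hx] with n h1 h2 h3
    rintro q ⟨pt, hpt, rfl⟩
    rw [rkf_spec h1 h2 hpt]
    refine ⟨rfl, sub pt [(p ξ n).i], ?_, rfl⟩
    have h4 := hpt.sub [(p ξ n).i]
    rwa [h3] at h4
  · filter_upwards [hp.valid δ₀, hs.name δ₀ x, hs.child δ x ξ (hξ.trans hδ) hx, hs.name δ x,
      hs.name δ (ch x ξ), hp.ref δ₀ δ hδ, hs.cut δ₀ δ x hδ, hs.cut δ₀ δ (ch x ξ) hδ,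
      hp.dbl ξ δ₀ hξ, hp.large ξ 1] with n h1 h2 h3 h4 h5 h6 h7 h8 h9 h10
    rintro q ⟨pt, hpt, rfl⟩
    obtain ⟨_, J, hJ⟩ := h6
    obtain ⟨h11, h12⟩ := hJ _ _ h4 hpt
    rw [h7] at h11 h12
    rw [h12, rkf_spec h1 h2 h11]
    have hlt : ∀ a ∈ [(p ξ n).i], a < (p δ₀ n).i := by
      intro a ha
      rw [List.mem_singleton] at ha
      have := h10.1
      omega
    have h13 : IsPoint (s δ (ch x ξ) n) (p δ n).N (sub pt [(p ξ n).i]) := by
      have := hpt.sub [(p ξ n).i]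
      rwa [h3] at this
    obtain ⟨h14, h15⟩ := hJ _ _ h5 h13
    rw [h8] at h14 h15
    refine ⟨rfl, sub pt [(p ξ n).i], h13, ?_⟩
    rw [h15, sub_iota J _ _ hlt, h3]

/-- Module I7. -/
theorem st_UFs : ST_UFs := by
  intro hB U hU X _ ch hch G hG CC PP hCC p hp s hs
  refine ⟨fun x => VU hB hG hCC hp hs x, ?_⟩
  refine ⟨fun x D => mem_VU hB hG hCC hp hs x D, ?_, ?_, ?_, ?_⟩
  · intro x A hA
    choose δ hδ using fun k => (mem_VU hB hG hCC hp hs x (A k)).1 (hA k)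
    obtain ⟨b, hb⟩ := hB.seq δ
    have h1 : ∀ k, {n | ∀ q ∈ Aset (p b n) (s b x n), (n, q) ∈ A k} ∈ U := by
      intro k
      have h2 : ∀ᶠ n in (U : Filter ℕ), ∀ q ∈ Aset (p b n) (s b x n), (n, q) ∈ A k := by
        filter_upwards [hδ k, Aset_anti hp hs x (hb k).le] with n h3 h4 q hq
        exact h3 q (h4 hq)
      exact h2
    obtain ⟨Z, hZ, hZ'⟩ := hU.ppoint _ h1
    refine ⟨{z | z.1 ∈ Z ∧ z.2 ∈ Aset (p b z.1) (s b x z.1)}, ?_, fun k => ?_⟩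
    · rw [mem_VU]
      refine ⟨b, ?_⟩
      have h3 : ∀ᶠ n in (U : Filter ℕ), n ∈ Z := hZ
      filter_upwards [h3] with n hn q hq
      exact ⟨hn, hq⟩
    · have h4 : ({z : ℕ × ℕ | z.1 ∈ Z ∧ z.2 ∈ Aset (p b z.1) (s b x z.1)} \ A k) ⊆
          ⋃ n ∈ (Z \ {n | ∀ q ∈ Aset (p b n) (s b x n), (n, q) ∈ A k}),
            (fun q => (n, q)) '' Aset (p b n) (s b x n) := by
        rintro ⟨n, q⟩ ⟨⟨h5, h6⟩, h7⟩
        simp only [Set.mem_iUnion]
        exact ⟨n, ⟨h5, fun h8 => h7 (h8 q h6)⟩, q, h6, rfl⟩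
      exact ((hZ' k).biUnion (fun n _ => (Aset_finite _ _).image _)).subset h4
  · intro x
    ext Z
    rw [Ultrafilter.mem_map, mem_VU]
    constructor
    · rintro ⟨δ, hδ⟩
      have h1 : ∀ᶠ n in (U : Filter ℕ), n ∈ Z := by
        filter_upwards [hδ, Aset_ne hG hp hs x δ] with n h2 ⟨q, hq⟩
        exact h2 q hq
      exact h1
    · intro hZ
      obtain ⟨δ⟩ := hB.nonempty
      have h1 : ∀ᶠ n in (U : Filter ℕ), n ∈ Z := hZ
      exact ⟨δ, h1.mono fun n hn q _ => hn⟩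
  · intro x
    obtain ⟨δ⟩ := hB.nonempty
    refine ⟨{z | z.2 ∈ Aset (p δ z.1) (s δ x z.1)}, ?_,
      fun n => Aset_finite (p δ n) (s δ x n)⟩
    rw [mem_VU]
    exact ⟨δ, Eventually.of_forall fun n q hq => hq⟩
  · intro x ξ hx
    obtain ⟨δ₀, hδ₀⟩ := hB.gt ξ
    refine ⟨rkf p s δ₀ ξ x (ch x ξ), ?_⟩
    refine Ultrafilter.eq_of_le ?_
    intro D hD
    have hD' : D ∈ VU hB hG hCC hp hs (ch x ξ) := hD
    rw [mem_VU] at hD'
    obtain ⟨δ, hδ⟩ := hD'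
    have h0 : (rkf p s δ₀ ξ x (ch x ξ)) ⁻¹' D ∈ VU hB hG hCC hp hs x := by
      rw [mem_VU]
      refine ⟨max δ₀ δ, ?_⟩
      filter_upwards [hδ, rkf_mem hp hs hx hδ₀ (le_max_left δ₀ δ),
        Aset_anti hp hs (ch x ξ) (le_max_right δ₀ δ)] with n h1 h2 h3 q hq
      obtain ⟨h4, h5⟩ := h2 q hq
      have h6 := h1 _ (h3 h5)
      have h7 : rkf p s δ₀ ξ x (ch x ξ) (n, q) =
          (n, (rkf p s δ₀ ξ x (ch x ξ) (n, q)).2) := Prod.ext h4 rfl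
      rw [Set.mem_preimage, h7]
      exact h6
    exact h0

end

end Pool.Agent.Helper11.PP
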